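import Mathlib
import Pool.Agent.Lib.MP_fd6bc6_al.Classical

set_option autoImplicit false

open MeasureTheory

namespace Pool.Agent.Results.MP_fd6bc6_al.ClassicalComponent

open Pool.Agent.MoufangHaar

universe u

/-- Every compact Moufang loop whose identity component is a projective limit of homomorphic
images of products of compact groups with powers of the loop of unit octonions has an
invariant Borel probability measure. -/
theorem result :
    ∀ (L : Type u) [TopologicalSpace L] [CompactSpace L] [T2Space L]
      [MeasurableSpace L] [BorelSpace L] (A : TopMoufang L),
      A.ProClassicalComponent →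
      ∃ μ : Measure L, IsProbabilityMeasure μ ∧
        ∀ a : L, μ.map (fun x => A.mul a x) = μ ∧ μ.map (fun x => A.mul x a) = μ := by
  intro L _ _ _ _ _ A h
  exact hasHaar_of_proClassical A h

end Pool.Agent.Results.MP_fd6bc6_al.ClassicalComponent
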