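import Mathlib
import Pool.Agent.Lib.MP_fd6bc6_al.Data

set_option autoImplicit false

open MeasureTheory

namespace Pool.Agent.Results.MP_fd6bc6_al.ExtensionTheorem

open Pool.Agent.MoufangHaar

/-- For a continuous homomorphism of a compact Moufang loop onto another one, the loop has
an invariant probability measure if and only if both the image and the kernel have one. -/
theorem result :
    ∀ (L Q : Type*) [TopologicalSpace L] [CompactSpace L] [T2Space L]
      [MeasurableSpace L] [BorelSpace L] [TopologicalSpace Q] [CompactSpace Q] [T2Space Q]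
      [MeasurableSpace Q] [BorelSpace Q] (A : TopMoufang L) (B : TopMoufang Q) (φ : L → Q),
      Continuous φ → Function.Surjective φ → (∀ x y, φ (A.mul x y) = B.mul (φ x) (φ y)) →
      (A.HasHaar ↔
        (∃ ν : Measure L, IsProbabilityMeasure ν ∧ ν {x | φ x = B.e}ᶜ = 0 ∧
          ∀ a, φ a = B.e →
            ν.map (fun x => A.mul a x) = ν ∧ ν.map (fun x => A.mul x a) = ν) ∧
        B.HasHaar) := by
  intro L Q _ _ _ _ _ _ _ _ _ _ A B φ hc hs hmul
  let : MLoop L := A.toM
  have : TopMLoop L := A.toT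
  let : MLoop Q := B.toM
  have : TopMLoop Q := B.toT
  have hφ : IsMHom φ := ⟨hmul⟩
  constructor
  · intro h
    have hH : HasHaar L := h
    refine ⟨?_, ?_⟩
    · obtain ⟨m, hm, hreg⟩ := exists_kerHaar φ hφ hc hH
      exact ⟨m, hm.prob, hm.conc, fun a ha => hm.map_eq hreg a ha⟩
    · have hQ : HasHaar Q := (hasInt_image φ hφ hc hs hH.hasInt).hasHaar
      exact hQ
  · rintro ⟨⟨ν, hp, h0, hν⟩, hQ⟩
    have hk : KerHaar φ ν := KerHaar.of_map ν h0 hν
    have hQ' : HasHaar Q := hQ
    exact (extension φ hφ hc hs ν hk hQ'.hasInt).hasHaar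

end Pool.Agent.Results.MP_fd6bc6_al.ExtensionTheorem
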